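import Pool.Agent.Q81.EX.Stm

set_option autoImplicit false

/-!
Project EX of helper81, job QCV: the solution of `-q'' = h` with zero boundary values.
-/

namespace Pool.Agent.Q164.EX

open Pool.Agent.Q81.EX
open Set MeasureTheory Filter Topology

theorem sub_ico {c : ℝ} (hc1 : c < 1) : Icc (0 : ℝ) c ⊆ Ico 0 1 :=
  fun _ hx => ⟨hx.1, lt_of_le_of_lt hx.2 hc1⟩

/-- integrability on `[0, c]`, `c < 1` -/
theorem ii {f : ℝ → ℝ} (hf : ContinuousOn f (Ico 0 1)) {c : ℝ} (h0 : 0 ≤ c) (hc1 : c < 1) :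
    IntervalIntegrable f volume 0 c := by
  apply ContinuousOn.intervalIntegrable
  rw [uIcc_of_le h0]
  exact hf.mono (sub_ico hc1)

/-- the fundamental theorem -/
theorem ftc {f : ℝ → ℝ} (hf : ContinuousOn f (Ico 0 1)) {s : ℝ} (hs : s ∈ Ico (0 : ℝ) 1) :
    HasDerivWithinAt (fun u => ∫ x in (0 : ℝ)..u, f x) (f s) (Ico 0 1) s := by
  obtain ⟨h0, h1⟩ := hs
  have hc1 : (s + 1) / 2 < 1 := by linarith
  have hsc : s < (s + 1) / 2 := by linarith
  have hm : s ∈ Icc (0 : ℝ) ((s + 1) / 2) := ⟨h0, hsc.le⟩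
  have : Fact (s ∈ Icc (0 : ℝ) ((s + 1) / 2)) := ⟨hm⟩
  have hcont : ContinuousOn f (Icc (0 : ℝ) ((s + 1) / 2)) := hf.mono (sub_ico hc1)
  have h := intervalIntegral.integral_hasDerivWithinAt_right (ii hf h0 h1)
    (s := Icc (0 : ℝ) ((s + 1) / 2)) (t := Icc (0 : ℝ) ((s + 1) / 2))
    (hcont.stronglyMeasurableAtFilter_nhdsWithin measurableSet_Icc s) (hcont s hm)
  apply h.mono_of_mem_nhdsWithin
  have e : Iio ((s + 1) / 2) ∈ 𝓝 s := Iio_mem_nhds hsc
  filter_upwards [self_mem_nhdsWithin, mem_nhdsWithin_of_mem_nhds e] with x hx hx'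
  exact ⟨hx.1, le_of_lt hx'⟩

variable {h : ℝ → ℝ}

theorem c1 (hh : Hb h) : ContinuousOn (fun r => r * h r) (Ico 0 1) :=
  continuousOn_id.mul hh.cont

theorem c2 (hh : Hb h) : ContinuousOn (fun r => (1 - r) * h r) (Ico 0 1) :=
  (continuousOn_const.sub continuousOn_id).mul hh.cont

theorem f2_nonneg (hh : Hb h) {r : ℝ} (hr : r ∈ Icc (0 : ℝ) 1) : 0 ≤ (1 - r) * h r := by
  rcases eq_or_lt_of_le hr.2 with e | l
  · rw [e]; simp
  · exact mul_nonneg (by linarith) (hh.nonneg r ⟨hr.1, l⟩)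

theorem f2_le (hh : Hb h) {r : ℝ} (hr : r ∈ Icc (0 : ℝ) 1) : (1 - r) * h r ≤ 12 := by
  rcases eq_or_lt_of_le hr.2 with e | l
  · rw [e]; simp
  · have h1 := hh.le r ⟨hr.1, l⟩
    have h2 : 0 < 1 - r := by linarith
    calc (1 - r) * h r ≤ (1 - r) * (12 / (1 - r)) := mul_le_mul_of_nonneg_left h1 h2.le
      _ = 12 := by field_simp

theorem i2 (hh : Hb h) : IntervalIntegrable (fun r => (1 - r) * h r) volume 0 1 := by
  rw [intervalIntegrable_iff_integrableOn_Ico_of_le zero_le_one]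
  refine IntegrableOn.of_bound (by simp) ((c2 hh).aestronglyMeasurable measurableSet_Ico) 12 ?_
  · refine (ae_restrict_iff' measurableSet_Ico).2 (Filter.Eventually.of_forall fun r hr => ?_)
    have hr' : r ∈ Icc (0 : ℝ) 1 := ⟨hr.1, hr.2.le⟩
    rw [Real.norm_eq_abs, abs_of_nonneg (f2_nonneg hh hr')]
    exact f2_le hh hr'


/-- `A` -/
noncomputable def fA (h : ℝ → ℝ) (s : ℝ) : ℝ := ∫ r in (0 : ℝ)..s, r * h r

/-- `B` -/
noncomputable def fB (h : ℝ → ℝ) (s : ℝ) : ℝ := ∫ r in s..1, (1 - r) * h r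

theorem dA (hh : Hb h) {s : ℝ} (hs : s ∈ Ico (0 : ℝ) 1) :
    HasDerivWithinAt (fA h) (s * h s) (Ico 0 1) s := ftc (c1 hh) hs

theorem fB_eq (hh : Hb h) {s : ℝ} (hs : s ∈ Icc (0 : ℝ) 1) :
    fB h s = (∫ r in (0 : ℝ)..1, (1 - r) * h r) - ∫ r in (0 : ℝ)..s, (1 - r) * h r := by
  have i1 : IntervalIntegrable (fun r => (1 - r) * h r) volume 0 s :=
    (i2 hh).mono_set (by
      rw [uIcc_of_le hs.1, uIcc_of_le zero_le_one]; exact Icc_subset_Icc_right hs.2)
  have i3 : IntervalIntegrable (fun r => (1 - r) * h r) volume s 1 :=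
    (i2 hh).mono_set (by
      rw [uIcc_of_le hs.2, uIcc_of_le zero_le_one]; exact Icc_subset_Icc_left hs.1)
  have := intervalIntegral.integral_add_adjacent_intervals i1 i3
  unfold fB
  linarith

theorem dB (hh : Hb h) {s : ℝ} (hs : s ∈ Ico (0 : ℝ) 1) :
    HasDerivWithinAt (fB h) (-((1 - s) * h s)) (Ico 0 1) s := by
  have h1 := (ftc (c2 hh) hs).const_sub (∫ r in (0 : ℝ)..1, (1 - r) * h r)
  refine h1.congr (fun x hx => fB_eq hh ⟨hx.1, hx.2.le⟩) (fB_eq hh ⟨hs.1, hs.2.le⟩)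

theorem dq (hh : Hb h) {s : ℝ} (hs : s ∈ Ico (0 : ℝ) 1) :
    HasDerivWithinAt (qq h) (fB h s - fA h s) (Ico 0 1) s := by
  have h1 : HasDerivWithinAt (fun s : ℝ => 1 - s) (-1) (Ico 0 1) s := by
    simpa using (hasDerivWithinAt_id s (Ico 0 1)).const_sub 1
  have h2 := h1.mul (dA hh hs)
  have h3 := (hasDerivWithinAt_id s (Ico 0 1)).mul (dB hh hs)
  have h4 := h2.add h3
  have e : (-1 * fA h s + (1 - s) * (s * h s) + (1 * fB h s + id s * -((1 - s) * h s))) =
      fB h s - fA h s := by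
    simp only [id]; ring
  rw [e] at h4
  exact h4

theorem dq' (hh : Hb h) {s : ℝ} (hs : s ∈ Ico (0 : ℝ) 1) :
    HasDerivWithinAt (fun s => fB h s - fA h s) (-h s) (Ico 0 1) s := by
  have h4 := (dB hh hs).sub (dA hh hs)
  have e : (-((1 - s) * h s) - s * h s) = -h s := by ring
  rw [e] at h4
  exact h4

theorem A_nonneg (hh : Hb h) {s : ℝ} (hs : s ∈ Ico (0 : ℝ) 1) : 0 ≤ fA h s := by
  unfold fA
  apply intervalIntegral.integral_nonneg hs.1
  intro u hu
  exact mul_nonneg hu.1 (hh.nonneg u ⟨hu.1, lt_of_le_of_lt hu.2 hs.2⟩)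

theorem B_nonneg (hh : Hb h) {s : ℝ} (hs : s ∈ Icc (0 : ℝ) 1) : 0 ≤ fB h s := by
  unfold fB
  apply intervalIntegral.integral_nonneg hs.2
  intro u hu
  exact f2_nonneg hh ⟨hs.1.trans hu.1, hu.2⟩

theorem B_le (hh : Hb h) {s : ℝ} (hs : s ∈ Icc (0 : ℝ) 1) : fB h s ≤ 12 * (1 - s) := by
  unfold fB
  have i3 : IntervalIntegrable (fun r => (1 - r) * h r) volume s 1 :=
    (i2 hh).mono_set (by
      rw [uIcc_of_le hs.2, uIcc_of_le zero_le_one]; exact Icc_subset_Icc_left hs.1)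
  have h1 := intervalIntegral.integral_mono_on hs.2 i3 (intervalIntegrable_const (c := (12 : ℝ)))
    (fun u hu => f2_le hh ⟨hs.1.trans hu.1, hu.2⟩)
  refine h1.trans ?_
  rw [intervalIntegral.integral_const, smul_eq_mul]
  linarith

theorem A_le (hh : Hb h) {s : ℝ} (hs : s ∈ Ico (0 : ℝ) 1) :
    fA h s ≤ 12 * (-Real.log (1 - s) - s) := by
  unfold fA
  have hd : ∀ x ∈ uIcc (0 : ℝ) s, HasDerivAt (fun x => 12 * (-Real.log (1 - x) - x))
      (12 * x / (1 - x)) x := by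
    intro x hx
    rw [uIcc_of_le hs.1] at hx
    have hx1 : 0 < 1 - x := by linarith [hx.2, hs.2]
    have h1 : HasDerivAt (fun x : ℝ => 1 - x) (-1) x := by
      simpa using (hasDerivAt_id x).const_sub 1
    have h2 := ((h1.log hx1.ne').neg.sub (hasDerivAt_id x)).const_mul 12
    have e : 12 * (-(-1 / (1 - x)) - 1) = 12 * x / (1 - x) := by
      have := hx1.ne'
      field_simp
      ring
    rw [e] at h2
    exact h2
  have hc : ContinuousOn (fun x : ℝ => 12 * x / (1 - x)) (uIcc 0 s) := by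
    rw [uIcc_of_le hs.1]
    apply ContinuousOn.div
    · exact continuousOn_const.mul continuousOn_id
    · exact continuousOn_const.sub continuousOn_id
    · intro x hx
      have : 0 < 1 - x := by linarith [hx.2, hs.2]
      exact this.ne'
  have hI := intervalIntegral.integral_eq_sub_of_hasDerivAt hd hc.intervalIntegrable
  have h1 := intervalIntegral.integral_mono_on hs.1 (ii (c1 hh) hs.1 hs.2) hc.intervalIntegrable
    (fun u hu => by
      have hu1 : u < 1 := lt_of_le_of_lt hu.2 hs.2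
      have := mul_le_mul_of_nonneg_left (hh.le u ⟨hu.1, hu1⟩) hu.1
      calc u * h u ≤ u * (12 / (1 - u)) := this
        _ = 12 * u / (1 - u) := by ring)
  refine h1.trans ?_
  rw [hI]
  simp

theorem q_eq (s : ℝ) : qq h s = (1 - s) * fA h s + s * fB h s := rfl

theorem q_zero : qq h 0 = 0 := by simp [qq]

theorem q_one : qq h 1 = 0 := by simp [qq]

theorem q_bd (hh : Hb h) {s : ℝ} (hs : s ∈ Icc (0 : ℝ) 1) :
    0 ≤ qq h s ∧ qq h s ≤ 24 * (s * Real.sqrt (1 - s)) := by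
  rcases eq_or_lt_of_le hs.2 with e | l
  · rw [e, q_one]; simp
  · have hs' : s ∈ Ico (0 : ℝ) 1 := ⟨hs.1, l⟩
    have hp : 0 < 1 - s := by linarith
    rw [q_eq]
    constructor
    · exact add_nonneg (mul_nonneg hp.le (A_nonneg hh hs')) (mul_nonneg hs.1 (B_nonneg hh hs))
    · have h1 := mul_le_mul_of_nonneg_left (A_le hh hs') hp.le
      have h2 := mul_le_mul_of_nonneg_left (B_le hh hs) hs.1
      set u := Real.sqrt (1 - s) with hu
      have hu0 : 0 < u := Real.sqrt_pos.2 hp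
      have huu : u ^ 2 = 1 - s := Real.sq_sqrt hp.le
      have hu1 : u ≤ 1 := by
        rw [hu]; exact Real.sqrt_le_one.2 (by linarith [hs.1])
      have hlog : Real.log (1 - s) = 2 * Real.log u := by
        rw [← huu, Real.log_pow]; norm_num
      have h3 : Real.log u⁻¹ ≤ u⁻¹ - 1 := Real.log_le_sub_one_of_pos (inv_pos.2 hu0)
      rw [Real.log_inv] at h3
      have h4 : u * (-Real.log u) ≤ 1 - u := by
        have := mul_le_mul_of_nonneg_left h3 hu0.le
        rw [mul_sub, mul_inv_cancel₀ hu0.ne', mul_one] at this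
        exact this
      have hs2 : s = 1 - u ^ 2 := by linarith
      have h5 : (1 - s) * (12 * (-Real.log (1 - s) - s)) + s * (12 * (1 - s)) =
          24 * (u * (u * (-Real.log u))) := by
        rw [hlog, ← huu]; ring
      have h6 : u * (u * (-Real.log u)) ≤ u * (1 - u) := mul_le_mul_of_nonneg_left h4 hu0.le
      have h7 : u * (1 - u) ≤ s * u := by
        rw [hs2]
        have : 0 ≤ u * ((1 - u) * u) := mul_nonneg hu0.le (mul_nonneg (by linarith) hu0.le)
        nlinarith [this]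
      linarith

theorem q_cont (hh : Hb h) : ContinuousOn (qq h) (Icc 0 1) := by
  intro s hs
  rcases eq_or_lt_of_le hs.2 with e | l
  · subst e
    have t1 : Tendsto (fun s : ℝ => 24 * (s * Real.sqrt (1 - s))) (𝓝[Icc 0 1] 1) (𝓝 0) := by
      have : Continuous fun s : ℝ => 24 * (s * Real.sqrt (1 - s)) := by fun_prop
      have h1 := (this.tendsto 1).mono_left (nhdsWithin_le_nhds (s := Icc (0 : ℝ) 1))
      simpa using h1
    unfold ContinuousWithinAt
    rw [q_one]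
    refine tendsto_of_tendsto_of_tendsto_of_le_of_le' tendsto_const_nhds t1 ?_ ?_
    · filter_upwards [self_mem_nhdsWithin] with x hx using (q_bd hh hx).1
    · filter_upwards [self_mem_nhdsWithin] with x hx using (q_bd hh hx).2
  · have hs' : s ∈ Ico (0 : ℝ) 1 := ⟨hs.1, l⟩
    refine (dq hh hs').continuousWithinAt.mono_of_mem_nhdsWithin ?_
    filter_upwards [self_mem_nhdsWithin, mem_nhdsWithin_of_mem_nhds (Iio_mem_nhds l)] with x hx hx'
    exact ⟨hx.1, hx'⟩

theorem q_conc (hh : Hb h) : ConcaveOn ℝ (Icc 0 1) (qq h) := by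
  have sub : Ioo (0 : ℝ) 1 ⊆ Ico 0 1 := Ioo_subset_Ico_self
  refine concaveOn_of_hasDerivWithinAt2_nonpos (convex_Icc 0 1) (q_cont hh)
    (f' := fun s => fB h s - fA h s) (f'' := fun s => -h s) ?_ ?_ ?_
  · intro x hx
    rw [interior_Icc] at hx ⊢
    exact (dq hh (sub hx)).mono sub
  · intro x hx
    rw [interior_Icc] at hx ⊢
    exact (dq' hh (sub hx)).mono sub
  · intro x hx
    rw [interior_Icc] at hx
    have := hh.nonneg x (sub hx)
    linarith

theorem qcv : S_QCV := fun _ hh =>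
  ⟨q_cont hh, q_conc hh, q_zero, q_one, fun _ hs => q_bd hh hs, fun _ hs => dq hh hs,
    fun _ hs => dq' hh hs⟩

end Pool.Agent.Q164.EX
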